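import Pool.Agent.K9h2.OP6.Stm
import Pool.Agent.R260.SC.IU

/-! Leaf IU6: the corners have a smaller `tr |M|^6`. -/

set_option autoImplicit false

open MeasureTheory Matrix Filter Topology
open scoped ComplexOrder MatrixOrder

namespace Pool.Agent.K9h2.OP6

open Pool.Agent.R260.SC (corner)

namespace IU6h56

theorem sq_psd {n : ℕ} {X : Matrix (Fin n) (Fin n) ℂ} (hX : X.PosSemidef) :
    (X * X).PosSemidef := by
  have h := Matrix.posSemidef_conjTranspose_mul_self X
  have e : Xᴴ = X := hX.isHermitian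
  rwa [e] at h

/-- `tr X³ ≤ tr (X + Z)³` for positive semidefinite `X, Z` -/
theorem trace_le {n : ℕ} {X Z : Matrix (Fin n) (Fin n) ℂ} (hX : X.PosSemidef)
    (hZ : Z.PosSemidef) : ((X ^ 3).trace).re ≤ (((X + Z) ^ 3).trace).re := by
  have h3 : (X + Z) ^ 3 = X ^ 3 + X * X * Z + X * Z * X + Z * (X * X) + X * (Z * Z) +
      Z * X * Z + Z * Z * X + Z * Z * Z := by
    noncomm_ring
  have hXX := sq_psd hX
  have hZZ := sq_psd hZ
  have a1 := Pool.Agent.R260.SC.IU777.trace_mul hXX hZ
  have a2 : 0 ≤ ((X * Z * X).trace).re := by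
    rw [Matrix.trace_mul_cycle]
    exact a1
  have a3 := Pool.Agent.R260.SC.IU777.trace_mul hZ hXX
  have a4 := Pool.Agent.R260.SC.IU777.trace_mul hX hZZ
  have a6 := Pool.Agent.R260.SC.IU777.trace_mul hZZ hX
  have a5 : 0 ≤ ((Z * X * Z).trace).re := by
    rw [Matrix.trace_mul_cycle]
    exact a6
  have a7 := Pool.Agent.R260.SC.IU777.trace_mul hZZ hZ
  rw [h3]
  simp only [Matrix.trace_add, Complex.add_re]
  linarith

section

variable {H : Type*} [NormedAddCommGroup H] [InnerProductSpace ℂ H] [CompleteSpace H]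
  (b : HilbertBasis ℕ ℂ H) (M : H →L[ℂ] H) (n : ℕ)

/-- the Gram matrix of the `M b_i` -/
noncomputable def Y : Matrix (Fin n) (Fin n) ℂ := Matrix.gram ℂ (fun i : Fin n => M (b i))

theorem corner_le : (((((corner b M n)ᴴ * corner b M n)) ^ 3).trace).re ≤
    (((Y b M n) ^ 3).trace).re := by
  classical
  set X : Matrix (Fin n) (Fin n) ℂ := (corner b M n)ᴴ * corner b M n with hX
  have hXp : X.PosSemidef := Matrix.posSemidef_conjTranspose_mul_self _
  have hb : Orthonormal ℂ (fun k : Fin n => b (k : ℕ)) :=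
    b.orthonormal.comp (fun k : Fin n => (k : ℕ)) Fin.val_injective
  let r : Fin n → H := fun i => M (b i) - ∑ k : Fin n, (inner ℂ (b k) (M (b i)) : ℂ) • b (k : ℕ)
  let Z : Matrix (Fin n) (Fin n) ℂ := Matrix.gram ℂ r
  have hZ : Z.PosSemidef := Matrix.posSemidef_gram ℂ r
  have hY : Y b M n = X + Z := by
    ext i j
    have h1 : Z i j = inner ℂ (M (b i)) (M (b j)) -
        ∑ k : Fin n, (starRingEnd ℂ) (inner ℂ (b k) (M (b i))) * inner ℂ (b k) (M (b j)) := by
      change inner ℂ (r i) (r j) = _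
      simp only [r]
      rw [inner_sub_left, inner_sub_right, inner_sub_right, hb.inner_sum]
      have e1 : inner ℂ (M (b i)) (∑ k : Fin n, (inner ℂ (b k) (M (b j)) : ℂ) • b (k : ℕ)) =
          ∑ k : Fin n, (starRingEnd ℂ) (inner ℂ (b k) (M (b i))) * inner ℂ (b k) (M (b j)) := by
        rw [inner_sum]
        refine Finset.sum_congr rfl fun k _ => ?_
        rw [inner_smul_right, inner_conj_symm, mul_comm]
      have e2 : inner ℂ (∑ k : Fin n, (inner ℂ (b k) (M (b i)) : ℂ) • b (k : ℕ)) (M (b j)) =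
          ∑ k : Fin n, (starRingEnd ℂ) (inner ℂ (b k) (M (b i))) * inner ℂ (b k) (M (b j)) := by
        rw [sum_inner]
        refine Finset.sum_congr rfl fun k _ => ?_
        rw [inner_smul_left]
      rw [e1, e2]
      ring
    have h2 : X i j =
        ∑ k : Fin n, (starRingEnd ℂ) (inner ℂ (b k) (M (b i))) * inner ℂ (b k) (M (b j)) := by
      rw [hX, Matrix.mul_apply]
      rfl
    rw [Matrix.add_apply, h1, h2]
    change inner ℂ (M (b i)) (M (b j)) = _
    ring
  rw [hY]
  exact trace_le hXp hZ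

/-- `M* M b_i` -/
noncomputable def t (i : ℕ) : H := (ContinuousLinearMap.adjoint M) (M (b i))

noncomputable def pr (i : Fin n) : H := ∑ k : Fin n, (Y b M n k i) • b (k : ℕ)

noncomputable def r (i : Fin n) : H := t b M i - pr b M n i

theorem Y_symm (i j : Fin n) : (starRingEnd ℂ) (Y b M n j i) = Y b M n i j := by
  change (starRingEnd ℂ) (inner ℂ (M (b j)) (M (b i))) = inner ℂ (M (b i)) (M (b j))
  rw [inner_conj_symm]

theorem inner_b_r (k i : Fin n) : inner ℂ (b k) (r b M n i) = 0 := by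
  classical
  have hb : Orthonormal ℂ (fun k : Fin n => b (k : ℕ)) :=
    b.orthonormal.comp (fun k : Fin n => (k : ℕ)) Fin.val_injective
  unfold r pr t
  rw [inner_sub_right, ContinuousLinearMap.adjoint_inner_right]
  have := hb.inner_right_fintype (fun k => Y b M n k i) k
  rw [this]
  exact sub_self _

theorem inner_pr_r (k i : Fin n) : inner ℂ (pr b M n k) (r b M n i) = 0 := by
  unfold pr
  rw [sum_inner]
  refine Finset.sum_eq_zero fun l _ => ?_
  rw [inner_smul_left, inner_b_r, mul_zero]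

theorem inner_t_r (k i : Fin n) : inner ℂ (t b M k) (r b M n i) =
    inner ℂ (r b M n k) (r b M n i) := by
  have : t b M k = r b M n k + pr b M n k := by
    unfold r
    rw [sub_add_cancel]
  rw [this, inner_add_left, inner_pr_r, add_zero]

theorem M_pr (i : Fin n) : M (pr b M n i) = ∑ k : Fin n, (Y b M n k i) • M (b (k : ℕ)) := by
  unfold pr
  rw [map_sum]
  simp only [map_smul]

theorem e1 (i : Fin n) : inner ℂ (M (pr b M n i)) (M (pr b M n i)) =
    ((Y b M n) * ((Y b M n) * (Y b M n))) i i := by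
  rw [M_pr, sum_inner, Matrix.mul_apply]
  refine Finset.sum_congr rfl fun k _ => ?_
  rw [inner_smul_left, Y_symm, inner_sum, Matrix.mul_apply]
  congr 1
  refine Finset.sum_congr rfl fun l _ => ?_
  rw [inner_smul_right, mul_comm]
  rfl

theorem e2 (i : Fin n) : inner ℂ (M (pr b M n i)) (M (r b M n i)) =
    ((Y b M n) * Matrix.gram ℂ (r b M n)) i i := by
  rw [M_pr, sum_inner, Matrix.mul_apply]
  refine Finset.sum_congr rfl fun k _ => ?_
  rw [inner_smul_left, Y_symm, ← ContinuousLinearMap.adjoint_inner_left]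
  congr 1
  exact inner_t_r b M n k i

theorem main : (((Y b M n) ^ 3).trace).re ≤
    ∑ i : Fin n, ‖M ((ContinuousLinearMap.adjoint M) (M (b i)))‖ ^ 2 := by
  have h1 : ∀ i : Fin n, (((Y b M n) * ((Y b M n) * (Y b M n))) i i).re +
      2 * (((Y b M n) * Matrix.gram ℂ (r b M n)) i i).re ≤
      ‖M ((ContinuousLinearMap.adjoint M) (M (b i)))‖ ^ 2 := by
    intro i
    have h2 : M ((ContinuousLinearMap.adjoint M) (M (b i))) =
        M (pr b M n i) + M (r b M n i) := by
      rw [← map_add]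
      congr 1
      unfold r t
      rw [add_sub_cancel]
    rw [h2, @norm_add_sq ℂ, ← e2, ← e1]
    have h3 : (inner ℂ (M (pr b M n i)) (M (pr b M n i)) : ℂ).re = ‖M (pr b M n i)‖ ^ 2 := by
      rw [inner_self_eq_norm_sq_to_K]
      norm_cast
    rw [h3]
    have h4 : 0 ≤ ‖M (r b M n i)‖ ^ 2 := by positivity
    have h5 : RCLike.re (inner ℂ (M (pr b M n i)) (M (r b M n i)) : ℂ) =
      (inner ℂ (M (pr b M n i)) (M (r b M n i)) : ℂ).re := rfl
    rw [h5]
    linarith
  have h6 := Finset.sum_le_sum fun i (_ : i ∈ (Finset.univ : Finset (Fin n))) => h1 i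
  refine le_trans ?_ h6
  rw [Finset.sum_add_distrib, ← Finset.mul_sum]
  have h7 : (((Y b M n) ^ 3).trace).re =
      ∑ i : Fin n, (((Y b M n) * ((Y b M n) * (Y b M n))) i i).re := by
    rw [← Complex.re_sum]
    congr 1
    rw [pow_succ, pow_two, Matrix.mul_assoc]
    rfl
  have h8 : 0 ≤ ∑ i : Fin n, (((Y b M n) * Matrix.gram ℂ (r b M n)) i i).re := by
    have := Pool.Agent.R260.SC.IU777.trace_mul
      (Matrix.posSemidef_gram ℂ (fun i : Fin n => M (b i))) (Matrix.posSemidef_gram ℂ (r b M n))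
    rw [← Complex.re_sum]
    exact this
  rw [h7]
  linarith

end

end IU6h56

theorem iu6 : S_IU6 := by
  intro H _ _ _ b M n
  calc ENNReal.ofReal ((((corner b M n)ᴴ * corner b M n) ^ 3).trace).re
      ≤ ENNReal.ofReal (∑ i : Fin n, ‖M ((ContinuousLinearMap.adjoint M) (M (b i)))‖ ^ 2) :=
        ENNReal.ofReal_le_ofReal ((IU6h56.corner_le b M n).trans (IU6h56.main b M n))
    _ = ∑ i : Fin n, ENNReal.ofReal (‖M ((ContinuousLinearMap.adjoint M) (M (b i)))‖ ^ 2) :=
        ENNReal.ofReal_sum_of_nonneg fun i _ => by positivity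
    _ = ∑ i ∈ Finset.range n, ENNReal.ofReal (‖M ((ContinuousLinearMap.adjoint M) (M (b i)))‖ ^ 2) :=
        Fin.sum_univ_eq_sum_range
          (fun i => ENNReal.ofReal (‖M ((ContinuousLinearMap.adjoint M) (M (b i)))‖ ^ 2)) n
    _ ≤ ∑' i, ENNReal.ofReal (‖M ((ContinuousLinearMap.adjoint M) (M (b i)))‖ ^ 2) :=
        ENNReal.sum_le_tsum _

end Pool.Agent.K9h2.OP6
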