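import Pool.Agent.K9h2.OP6.Stm

/-!
# `tr |M|^6` is at most the lower limit over the corners (leaf IW6, by helper19)
-/

set_option autoImplicit false

open MeasureTheory Matrix Filter Topology

namespace Pool.Agent.K9h2.OP6

open Pool.Agent.R260.SC (corner)

namespace IW19

variable {H : Type*} [NormedAddCommGroup H] [InnerProductSpace ℂ H] [CompleteSpace H]

/-- the projection to the first `n` basis vectors -/
noncomputable def P (b : HilbertBasis ℕ ℂ H) (n : ℕ) (x : H) : H :=
  ∑ k ∈ Finset.range n, (inner ℂ (b k) x : ℂ) • b k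

theorem P_tendsto (b : HilbertBasis ℕ ℂ H) (x : H) :
    Tendsto (fun n => P b n x) atTop (𝓝 x) := by
  have h := (b.hasSum_repr x).tendsto_sum_nat
  refine h.congr fun n => ?_
  unfold P
  refine Finset.sum_congr rfl fun k _ => ?_
  rw [b.repr_apply_apply]

theorem inner_P_left (b : HilbertBasis ℕ ℂ H) (n : ℕ) (u w : H) :
    (inner ℂ (P b n u) w : ℂ) = ∑ k ∈ Finset.range n, inner ℂ u (b k) * inner ℂ (b k) w := by
  unfold P
  rw [sum_inner]
  refine Finset.sum_congr rfl fun k _ => ?_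
  rw [inner_smul_left, inner_conj_symm]

theorem inner_P_right (b : HilbertBasis ℕ ℂ H) (n : ℕ) (u w : H) :
    (inner ℂ u (P b n w) : ℂ) = ∑ k ∈ Finset.range n, inner ℂ u (b k) * inner ℂ (b k) w := by
  unfold P
  rw [inner_sum]
  refine Finset.sum_congr rfl fun k _ => ?_
  rw [inner_smul_right, mul_comm]

/-- the entries of `C Cᴴ C` -/
noncomputable def W (b : HilbertBasis ℕ ℂ H) (M : H →L[ℂ] H) (n l i : ℕ) : ℂ :=
  inner ℂ (P b n ((ContinuousLinearMap.adjoint M) (b l)))
    ((ContinuousLinearMap.adjoint M) (P b n (M (b i))))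

theorem W_tendsto (b : HilbertBasis ℕ ℂ H) (M : H →L[ℂ] H) (l i : ℕ) :
    Tendsto (fun n => W b M n l i) atTop
      (𝓝 (inner ℂ (b l) (M ((ContinuousLinearMap.adjoint M) (M (b i)))))) := by
  rw [← ContinuousLinearMap.adjoint_inner_left]
  exact (P_tendsto b _).inner
    (((ContinuousLinearMap.adjoint M).continuous.tendsto _).comp (P_tendsto b _))

theorem W_eq (b : HilbertBasis ℕ ℂ H) (M : H →L[ℂ] H) (n : ℕ) (l i : Fin n) :
    (corner b M n * ((corner b M n)ᴴ * corner b M n)) l i = W b M n l i := by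
  unfold W
  rw [inner_P_left, Matrix.mul_apply, Finset.sum_range]
  refine Finset.sum_congr rfl fun j _ => ?_
  have h1 : corner b M n l j = inner ℂ ((ContinuousLinearMap.adjoint M) (b (l : ℕ))) (b (j : ℕ)) := by
    rw [ContinuousLinearMap.adjoint_inner_left]
    rfl
  have h2 : ((corner b M n)ᴴ * corner b M n) j i =
      inner ℂ (b (j : ℕ)) ((ContinuousLinearMap.adjoint M) (P b n (M (b (i : ℕ))))) := by
    rw [ContinuousLinearMap.adjoint_inner_right, inner_P_right, Matrix.mul_apply, Finset.sum_range]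
    refine Finset.sum_congr rfl fun k _ => ?_
    rw [Matrix.conjTranspose_apply]
    unfold corner
    rw [← inner_conj_symm (M (b (j : ℕ))) (b (k : ℕ))]
    rfl
  rw [h1, h2]

theorem trace_eq (b : HilbertBasis ℕ ℂ H) (M : H →L[ℂ] H) (n : ℕ) :
    ((((corner b M n)ᴴ * corner b M n) ^ 3).trace).re =
      ∑ l ∈ Finset.range n, ∑ i ∈ Finset.range n, ‖W b M n l i‖ ^ 2 := by
  have h0 : ((corner b M n)ᴴ * corner b M n) ^ 3 =
      (corner b M n * ((corner b M n)ᴴ * corner b M n))ᴴ *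
        (corner b M n * ((corner b M n)ᴴ * corner b M n)) := by
    rw [Matrix.conjTranspose_mul, Matrix.conjTranspose_mul, Matrix.conjTranspose_conjTranspose,
      pow_succ, sq]
    simp only [Matrix.mul_assoc]
  rw [h0, Finset.sum_comm, Finset.sum_range, Matrix.trace, Complex.re_sum]
  refine Finset.sum_congr rfl fun i _ => ?_
  rw [Matrix.diag_apply, Matrix.mul_apply, Complex.re_sum, Finset.sum_range]
  refine Finset.sum_congr rfl fun l _ => ?_
  rw [Matrix.conjTranspose_apply, W_eq]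
  change ((starRingEnd ℂ) (W b M n l i) * W b M n l i).re = _
  rw [← Complex.normSq_eq_conj_mul_self, Complex.ofReal_re, Complex.normSq_eq_norm_sq]

end IW19

open IW19 in
theorem iw6 : S_IW6 := by
  intro H _ _ _ b M
  classical
  set z : ℕ → H := fun i => M ((ContinuousLinearMap.adjoint M) (M (b i))) with hz
  have hlim : ∀ p : ℕ × ℕ, Tendsto (fun n => ENNReal.ofReal (‖W b M n p.2 p.1‖ ^ 2)) atTop
      (𝓝 (ENNReal.ofReal (‖(inner ℂ (b p.2) (z p.1) : ℂ)‖ ^ 2))) := by
    intro p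
    exact (ENNReal.continuous_ofReal.tendsto _).comp (((W_tendsto b M p.2 p.1).norm).pow 2)
  have hfat : ∀ s : Finset (ℕ × ℕ),
      ∑ p ∈ s, ENNReal.ofReal (‖(inner ℂ (b p.2) (z p.1) : ℂ)‖ ^ 2) ≤
      Filter.liminf (fun n => ENNReal.ofReal
        ((((corner b M n)ᴴ * corner b M n) ^ 3).trace).re) Filter.atTop := by
    intro s
    have h1 : Tendsto (fun n => ∑ p ∈ s, ENNReal.ofReal (‖W b M n p.2 p.1‖ ^ 2)) atTop
        (𝓝 (∑ p ∈ s, ENNReal.ofReal (‖(inner ℂ (b p.2) (z p.1) : ℂ)‖ ^ 2))) :=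
      tendsto_finsetSum _ fun p _ => hlim p
    rw [← h1.liminf_eq]
    refine liminf_le_liminf ?_
    have h2 : ∀ᶠ n : ℕ in atTop, ∀ p ∈ s, p.1 < n ∧ p.2 < n := by
      rw [Finset.eventually_all]
      intro p _
      exact (eventually_gt_atTop p.1).and (eventually_gt_atTop p.2)
    filter_upwards [h2] with n hn
    rw [trace_eq b M n, Finset.sum_comm,
      ← Finset.sum_product' (Finset.range n) (Finset.range n) (fun i l => ‖W b M n l i‖ ^ 2),
      ENNReal.ofReal_sum_of_nonneg (fun _ _ => by positivity)]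
    apply Finset.sum_le_sum_of_subset
    intro p hp
    rw [Finset.mem_product, Finset.mem_range, Finset.mem_range]
    exact hn p hp
  have hpars : ∀ i, ENNReal.ofReal (‖z i‖ ^ 2) =
      ∑' j, ENNReal.ofReal (‖(inner ℂ (b j) (z i) : ℂ)‖ ^ 2) := by
    intro i
    have h1 := b.hasSum_inner_mul_inner (z i) (z i)
    have h2 : ∀ j, inner ℂ (z i) (b j) * inner ℂ (b j) (z i) =
        ((‖(inner ℂ (b j) (z i) : ℂ)‖ ^ 2 : ℝ) : ℂ) := by
      intro j
      rw [← inner_conj_symm (z i) (b j), ← Complex.normSq_eq_conj_mul_self,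
        Complex.normSq_eq_norm_sq]
    simp only [h2] at h1
    have h3 : inner ℂ (z i) (z i) = ((‖z i‖ ^ 2 : ℝ) : ℂ) := by
      rw [inner_self_eq_norm_sq_to_K]
      norm_cast
    rw [h3] at h1
    have h4 : HasSum (fun j => ‖(inner ℂ (b j) (z i) : ℂ)‖ ^ 2) (‖z i‖ ^ 2) := by
      exact_mod_cast h1
    rw [← h4.tsum_eq]
    exact ENNReal.ofReal_tsum_of_nonneg (fun _ => by positivity) h4.summable
  refine (tsum_congr hpars).le.trans ?_
  rw [← ENNReal.tsum_prod, ENNReal.tsum_eq_iSup_sum]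
  exact iSup_le hfat

end Pool.Agent.K9h2.OP6
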