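import Pool.Agent.R260.SC.Defs2

/-!
# `p = 6`: from matrices to operators of `S_6` (MP_41c25d_an): statements
-/

set_option autoImplicit false

open MeasureTheory Matrix Filter Topology

namespace Pool.Agent.K9h2.OP6

open Pool.Agent.R260.SC (corner)

universe u

/-- IU6: the corners have a smaller `tr |M|^6`. Proof: let `X = Cᴴ C`, `C` the corner, with
eigenvalues `λ_j` and orthonormal eigenvectors `v_j`, `e_j = ∑ k, v_j k • b k` (unit vectors).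
`λ_j = ‖C v_j‖² = ∑_{l<n} |⟨b_l, M e_j⟩|² ≤ ‖M e_j‖²` (Bessel), and for a unit vector `e`
`‖M e‖² ≤ ‖M* M e‖`, `‖M* M e‖² ≤ ‖M e‖ ‖M M* M e‖`, hence `‖M e‖^6 ≤ ‖M M* M e‖²`. Finally
`∑_j ‖M M* M e_j‖² = ∑_{k<n} ‖M M* M b_k‖²` since the matrix of the `v_j` is unitary. -/
def S_IU6 : Prop := ∀ (H : Type u) [NormedAddCommGroup H] [InnerProductSpace ℂ H]
  [CompleteSpace H] (b : HilbertBasis ℕ ℂ H) (M : H →L[ℂ] H) (n : ℕ),
  ENNReal.ofReal ((((corner b M n)ᴴ * corner b M n) ^ 3).trace).re ≤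
    ∑' i, ENNReal.ofReal (‖M ((ContinuousLinearMap.adjoint M) (M (b i)))‖ ^ 2)

/-- IW6: `tr |M|^6` is at most the lower limit over the corners. Proof as in
`Pool/Agent/R260/SC/IW.lean`: `tr (X³) = ∑_{l,i<n} |(C X) l i|²`, and for fixed `l, i` the entry
`(C X) l i = (C Cᴴ C) l i` converges to `⟨b_l, M M* M b_i⟩` (with `P_n x = ∑_{k<n} ⟨b_k, x⟩ b_k`,
`(C Cᴴ C) l i = ⟨b_l, M P_n M* P_n M b_i⟩`, `P_n x → x`, `‖P_n‖ ≤ 1`); Fatou over finite sets and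
Parseval. -/
def S_IW6 : Prop := ∀ (H : Type u) [NormedAddCommGroup H] [InnerProductSpace ℂ H]
  [CompleteSpace H] (b : HilbertBasis ℕ ℂ H) (M : H →L[ℂ] H),
  ∑' i, ENNReal.ofReal (‖M ((ContinuousLinearMap.adjoint M) (M (b i)))‖ ^ 2) ≤
    Filter.liminf (fun n => ENNReal.ofReal
      ((((corner b M n)ᴴ * corner b M n) ^ 3).trace).re) Filter.atTop

/-- LC6: limits of sums of sixth powers. -/
def S_LC6 : Prop := ∀ (N : ℕ → ℂ → ℂ → ℝ) (C : ℝ),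
  (∀ n, ∃ (m : ℕ) (x y : Fin m → ℂ), ∀ α β : ℂ, N n α β = ∑ k, ‖α * x k + β * y k‖ ^ 6) →
  (∀ n, N n 1 0 ≤ C ∧ N n 0 1 ≤ C) →
  ∃ (m : ℕ) (x y : Fin m → ℂ) (φ : ℕ → ℕ), StrictMono φ ∧
    ∀ α β : ℂ, Tendsto (fun n => N (φ n) α β) atTop (𝓝 (∑ k, ‖α * x k + β * y k‖ ^ 6))

end Pool.Agent.K9h2.OP6
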